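import Pool.Agent.helper4.GA.Spec

/-!
# Row FP1: numbers
-/

set_option autoImplicit false

open Finset
open Pool.Agent.helper32.Cant

namespace Pool.Agent.GA

theorem FP1_log : Real.log 3 < 11 / 10 := by
  rw [Real.log_lt_iff_lt_exp (by norm_num)]
  have h1 : (3 : ℝ) ^ 10 < Real.exp (11 / 10) ^ 10 := by
    rw [← Real.exp_nat_mul]
    have h2 : ((10 : ℕ) : ℝ) * (11 / 10) = ((11 : ℕ) : ℝ) * 1 := by norm_num
    rw [h2, Real.exp_nat_mul]
    have h3 : (2.718 : ℝ) < Real.exp 1 := lt_trans (by norm_num) Real.exp_one_gt_d9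
    calc (3 : ℝ) ^ 10 < 2.718 ^ 11 := by norm_num
      _ ≤ Real.exp 1 ^ 11 := pow_le_pow_left₀ (by norm_num) h3.le 11
  exact lt_of_pow_lt_pow_left₀ 10 (Real.exp_pos _).le h1

/-- `exp (-140 m) ≤ (1/9) / 3^(121 m)` -/
theorem FP1_exp (m : ℕ) (hm : 2 ≤ m) {t : ℝ} (ht : t ≤ -(140 * (m : ℝ))) :
    Real.exp t ≤ 1 / 9 * (1 / 3 ^ (121 * m)) := by
  have hm' : (2 : ℝ) ≤ m := by exact_mod_cast hm
  have h1 : (3 : ℝ) ^ (121 * m) = Real.exp ((121 * m : ℕ) * Real.log 3) := by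
    rw [Real.exp_nat_mul, Real.exp_log (by norm_num)]
  have h2 : (9 : ℝ) = Real.exp ((2 : ℕ) * Real.log 3) := by
    rw [Real.exp_nat_mul, Real.exp_log (by norm_num)]
    norm_num
  rw [h1, h2, one_div, one_div, ← Real.exp_neg, ← Real.exp_neg, ← Real.exp_add]
  apply Real.exp_le_exp.2
  have h3 := FP1_log
  have h4 : (121 * (m : ℝ)) * Real.log 3 ≤ (121 * (m : ℝ)) * (11 / 10) :=
    mul_le_mul_of_nonneg_left h3.le (by positivity)
  push_cast
  linarith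

theorem FP1 : FP1_stmt := by
  intro n m hm hn
  have hm' : (2 : ℝ) ≤ m := by exact_mod_cast hm
  have hn' : (n : ℝ) ≤ 3 ^ m := by exact_mod_cast hn
  unfold et
  have hX : (0 : ℝ) < 3 ^ (121 * m) := by positivity
  have hlog := FP1_log
  have hlog0 : 0 < Real.log 3 := Real.log_pos (by norm_num)
  have h1 : Real.exp (-(8400000 * (m : ℝ) / 60000)) ≤ 1 / 9 * (1 / 3 ^ (121 * m)) := by
    apply FP1_exp m hm
    linarith
  have h2 : Real.exp (-(2 * (8400000 * (m : ℝ)))) ≤ 1 / 9 * (1 / 3 ^ (121 * m)) := by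
    apply FP1_exp m hm
    linarith
  have h3 : 16 * (n : ℝ) / 3 ^ (125 * m) ≤ 1 / 9 * (1 / 3 ^ (121 * m)) := by
    have e1 : (3 : ℝ) ^ (125 * m) = 3 ^ (121 * m) * 3 ^ m * 3 ^ (3 * m) := by
      rw [← pow_add, ← pow_add]
      congr 1
      ring
    have e2 : (3 : ℝ) ^ 6 ≤ 3 ^ (3 * m) := pow_le_pow_right₀ (by norm_num) (by omega)
    have e3 : (0 : ℝ) < 3 ^ m := by positivity
    rw [e1, div_le_iff₀ (by positivity)]
    have e4 : 1 / 9 * (1 / (3 : ℝ) ^ (121 * m)) * (3 ^ (121 * m) * 3 ^ m * 3 ^ (3 * m)) =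
        1 / 9 * (3 ^ m * 3 ^ (3 * m)) := by
      field_simp
    rw [e4]
    have e5 : (3 : ℝ) ^ m * 729 ≤ 3 ^ m * 3 ^ (3 * m) :=
      mul_le_mul_of_nonneg_left (le_trans (by norm_num) e2) e3.le
    linarith
  have h4 : Real.exp (4 * (8400000 * (m : ℝ)) - (2 * 10 ^ 13 * (m : ℝ) ^ 3 - 1 -
      Real.log (3 ^ (125 * m)) - 4 * ((91 * m : ℕ) : ℝ)) /
        (40 * ((91 * m : ℕ) : ℝ) * Real.log (3 ^ (125 * m)))) ≤
      1 / 9 * (1 / 3 ^ (121 * m)) := by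
    apply FP1_exp m hm
    rw [Real.log_pow]
    push_cast
    have e1 : (0 : ℝ) < 40 * (91 * (m : ℝ)) * (125 * (m : ℝ) * Real.log 3) := by positivity
    have e2 : 33600140 * (m : ℝ) ≤ (2 * 10 ^ 13 * (m : ℝ) ^ 3 - 1 -
        125 * (m : ℝ) * Real.log 3 - 4 * (91 * (m : ℝ))) /
        (40 * (91 * (m : ℝ)) * (125 * (m : ℝ) * Real.log 3)) := by
      rw [le_div_iff₀ e1]
      have e3 : 33600140 * (m : ℝ) * (40 * (91 * (m : ℝ)) * (125 * (m : ℝ) * Real.log 3)) ≤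
          33600140 * (m : ℝ) * (40 * (91 * (m : ℝ)) * (125 * (m : ℝ) * (11 / 10))) := by
        gcongr
      have e4 : 125 * (m : ℝ) * Real.log 3 ≤ 125 * (m : ℝ) * (11 / 10) := by
        gcongr
      have e5 : (m : ℝ) ≤ (m : ℝ) ^ 3 := by
        have e6 : (1 : ℝ) ≤ (m : ℝ) ^ 2 := by nlinarith
        nlinarith
      nlinarith
    linarith
  have h5 : (0 : ℝ) < 1 / 3 ^ (121 * m) := by positivity
  linarith

end Pool.Agent.GA
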